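import Pool.Agent.H436.PR.Pi

/-!
# All the points of fibre products of conic bundles over the line (helper436)
-/

set_option autoImplicit false

namespace Pool.Agent.H436.PR

open MvPolynomial
open Pool.Agent.H436.FP (Typ)
open Pool.Agent.R565.PU (Unirational FU fu_quadric)

section fibre

variable {K : Type} [Field K] [CharZero K] {m : ℕ}

/-- the types of the blocks of coordinates -/
def blk (m : ℕ) : Fin 1 ⊕ Fin m → Type
  | Sum.inl _ => Unit
  | Sum.inr _ => Bool

/-- the names of the coordinates -/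
def eqv (m : ℕ) : (Σ o : Fin 1 ⊕ Fin m, blk m o) ≃ Fin 1 ⊕ (Fin m ⊕ Fin m) where
  toFun s := match s with
    | ⟨Sum.inl j, _⟩ => Sum.inl j
    | ⟨Sum.inr i, false⟩ => Sum.inr (Sum.inl i)
    | ⟨Sum.inr i, true⟩ => Sum.inr (Sum.inr i)
  invFun s := match s with
    | Sum.inl j => ⟨Sum.inl j, ()⟩
    | Sum.inr (Sum.inl i) => ⟨Sum.inr i, false⟩
    | Sum.inr (Sum.inr i) => ⟨Sum.inr i, true⟩
  left_inv := by
    rintro ⟨j | i, s⟩
    · rfl
    · cases s <;> rfl
  right_inv := by
    rintro (j | i | i) <;> rfl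

/-- a conic, possibly degenerate -/
lemma fur_conic (α β : K) : FUR {y : Bool → K | y false ^ 2 = α * y true ^ 2 + β} := by
  have h1 := fu_quadric (X 0 ^ 2 - C α * X 1 ^ 2 - C β : MvPolynomial (Fin 2) K) (by
    refine (totalDegree_sub _ _).trans (max_le ((totalDegree_sub _ _).trans (max_le ?_ ?_)) ?_)
    · exact (totalDegree_pow _ _).trans (by rw [totalDegree_X])
    · refine (totalDegree_mul _ _).trans ?_
      rw [totalDegree_C, zero_add]
      exact (totalDegree_pow _ _).trans (by rw [totalDegree_X])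
    · rw [totalDegree_C]
      exact Nat.zero_le _)
  have h2 := (FUR.of_fu h1).reindex finTwoEquiv
  have e1 : {x : Bool → K | (fun s => x (finTwoEquiv s)) ∈ {z : Fin 2 → K |
      eval z (X 0 ^ 2 - C α * X 1 ^ 2 - C β : MvPolynomial (Fin 2) K) = 0}} =
      {y : Bool → K | y false ^ 2 = α * y true ^ 2 + β} := by
    ext x
    simp only [Set.mem_ofPred_eq, map_sub, map_mul, map_pow, eval_X, eval_C, finTwoEquiv]
    constructor
    · intro h
      simp at h
      linear_combination h
    · intro h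
      simp
      linear_combination h
  rwa [e1] at h2

/-- the fibres -/
lemma fur_fibre (t : K) (α β : Fin m → K) :
    FUR {x : Fin 1 ⊕ (Fin m ⊕ Fin m) → K | x (Sum.inl 0) = t ∧
      ∀ i, x (Sum.inr (Sum.inl i)) ^ 2 = α i * x (Sum.inr (Sum.inr i)) ^ 2 + β i} := by
  let S : ∀ o : Fin 1 ⊕ Fin m, Set (blk m o → K) := fun o => match o with
    | Sum.inl _ => ({fun _ => t} : Set (Unit → K))
    | Sum.inr i => {y : Bool → K | y false ^ 2 = α i * y true ^ 2 + β i}
  have h1 : FUR (Prd S) := FUR.prd fun o => by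
    rcases o with j | i
    · exact FUR.single (σ := Unit) fun _ => t
    · exact fur_conic (α i) (β i)
  have h2 := h1.reindex (eqv m)
  have e1 : {x : Fin 1 ⊕ (Fin m ⊕ Fin m) → K | (fun s => x (eqv m s)) ∈ Prd S} =
      {x : Fin 1 ⊕ (Fin m ⊕ Fin m) → K | x (Sum.inl 0) = t ∧
      ∀ i, x (Sum.inr (Sum.inl i)) ^ 2 = α i * x (Sum.inr (Sum.inr i)) ^ 2 + β i} := by
    ext x
    simp only [Set.mem_ofPred_eq]
    constructor
    · intro h
      refine ⟨?_, fun i => h (Sum.inr i)⟩
      have h3 := h (Sum.inl 0)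
      have h4 : (fun s : Unit => x (eqv m ⟨Sum.inl 0, s⟩)) = fun _ => t := h3
      exact congrFun h4 ()
    · rintro ⟨h3, h4⟩ (j | i)
      · show (fun s : Unit => x (eqv m ⟨Sum.inl j, s⟩)) ∈ ({fun _ => t} : Set (Unit → K))
        rw [Set.mem_singleton_iff]
        funext s
        have : j = 0 := Subsingleton.elim _ _
        subst this
        exact h3
      · exact h4 i
  rwa [e1] at h2

end fibre

section line

variable {K : Type} [Field K] [CharZero K] {m : ℕ}

/-- polynomials in one variable as polynomials in several variables -/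
noncomputable def up (A : Polynomial K) : MvPolynomial (Fin 1) K := Polynomial.aeval (X 0) A

omit [CharZero K] in
lemma eval_up (x : Fin 1 → K) (A : Polynomial K) : eval x (up A) = A.eval (x 0) := by
  rw [up]
  induction A using Polynomial.induction_on with
  | C a => simp [Polynomial.aeval_C]
  | add p q hp hq => simp only [map_add, hp, hq, Polynomial.eval_add]
  | monomial n a _ => simp

omit [CharZero K] in
lemma degreeOf_up (A : Polynomial K) : degreeOf 0 (up A) ≤ A.natDegree := by
  rw [up, Polynomial.aeval_eq_sum_range]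
  refine (degreeOf_sum_le 0 _ _).trans (Finset.sup_le fun i hi => ?_)
  rw [smul_eq_C_mul]
  refine (degreeOf_C_mul_le _ _ _).trans ((degreeOf_pow_le _ _ _).trans ?_)
  have h1 : degreeOf (0 : Fin 1) (X 0 : MvPolynomial (Fin 1) K) ≤ 1 := by
    rw [degreeOf_X]
    split_ifs <;> simp
  calc i * degreeOf (0 : Fin 1) (X 0 : MvPolynomial (Fin 1) K) ≤ i * 1 := Nat.mul_le_mul_left _ h1
    _ ≤ A.natDegree := by
      rw [mul_one]
      exact Nat.lt_succ_iff.1 (Finset.mem_range.1 hi)

lemma up_ne {A : Polynomial K} (hA : A ≠ 0) : up A ≠ 0 := by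
  intro h0
  apply hA
  have : Infinite K := CharZero.infinite K
  refine Polynomial.funext fun t => ?_
  have h1 := eval_up (fun _ => t) A
  rw [h0, map_zero] at h1
  rw [← h1, Polynomial.eval_zero]

/-- the conditions on the degrees -/
def SD (A F : Fin m → Polynomial K) : Prop :=
  (∀ i, A i ≠ 0 ∧ F i ≠ 0) ∧ (∀ i, (A i).natDegree = 0 ∨ (F i).natDegree = 0) ∧
  (Finset.univ.filter fun i => (A i).natDegree + (F i).natDegree ≠ 0).card ≤ 3 ∧
  ∑ i, ((A i).natDegree + (F i).natDegree + 1) / 2 ≤ 4

omit [CharZero K] in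
lemma SD.typ {A F : Fin m → Polynomial K} (h : SD A F) :
    Typ (fun i => up (A i)) (fun i => up (F i)) := by
  obtain ⟨-, h1, h2, h3⟩ := h
  refine ⟨fun j i => ?_, fun j => ?_, fun j => ?_⟩
  · have hj : j = 0 := Subsingleton.elim _ _
    subst hj
    rcases h1 i with h | h
    · left
      intro h'
      rw [mem_vars_iff_degreeOf_ne_zero] at h'
      beta_reduce at h'
      have := degreeOf_up (A i)
      omega
    · right
      intro h'
      rw [mem_vars_iff_degreeOf_ne_zero] at h'
      beta_reduce at h'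
      have := degreeOf_up (F i)
      omega
  · have hj : j = 0 := Subsingleton.elim _ _
    subst hj
    refine (Finset.card_le_card fun i hi => ?_).trans h2
    rw [Finset.mem_filter] at hi ⊢
    beta_reduce at hi
    have e1 := degreeOf_up (A i)
    have e2 := degreeOf_up (F i)
    exact ⟨Finset.mem_univ _, by have := hi.2; omega⟩
  · have hj : j = 0 := Subsingleton.elim _ _
    subst hj
    refine (Finset.sum_le_sum fun i _ => ?_).trans h3
    beta_reduce
    have e1 := degreeOf_up (A i)
    have e2 := degreeOf_up (F i)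
    omega

omit [CharZero K] in
lemma exists_G (g : MvPolynomial (Fin 1) K) :
    ∃ G : Polynomial K, ∀ t, G.eval t = eval (fun _ => t) g := by
  refine ⟨aeval (fun _ => Polynomial.X) g, fun t => ?_⟩
  induction g using MvPolynomial.induction_on with
  | C a => simp
  | add p q hp hq => simp only [map_add, Polynomial.eval_add, hp, hq]
  | mul_X p i hp => simp only [map_mul, Polynomial.eval_mul, hp, aeval_X, eval_X, Polynomial.eval_X]

/-- The point `(t, w, y)` is on the fibre product `w_i² = A_i(t) y_i² + F_i(t)` over the line. -/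
def OnL (A F : Fin m → Polynomial K) (t : K) (w y : Fin m → K) : Prop :=
  ∀ i, w i ^ 2 = (A i).eval t * y i ^ 2 + (F i).eval t

/-- **All the points of a fibre product of conic bundles over the line.** -/
theorem fu_line {A F : Fin m → Polynomial K} (h : SD A F) {N : ℕ}
    (ε : Fin 1 ⊕ (Fin m ⊕ Fin m) ≃ Fin N) :
    FU {x : Fin N → K | OnL A F (x (ε (Sum.inl 0))) (fun i => x (ε (Sum.inr (Sum.inl i))))
      (fun i => x (ε (Sum.inr (Sum.inr i))))} := by
  classical
  have hinf : Infinite K := CharZero.infinite K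
  obtain ⟨g, hg, hU⟩ := unir (fun i => up_ne (h.1 i).1) (fun i => up_ne (h.1 i).2) h.typ
  obtain ⟨G, hG⟩ := exists_G g
  have hG0 : G ≠ 0 := by
    rintro rfl
    apply hg
    refine MvPolynomial.funext fun x => ?_
    have : x = fun _ => x 0 := by
      funext j
      rw [Subsingleton.elim j 0]
    rw [this, ← hG, Polynomial.eval_zero, map_zero]
  have e1 : {x : Fin N → K | OnL A F (x (ε (Sum.inl 0))) (fun i => x (ε (Sum.inr (Sum.inl i))))
      (fun i => x (ε (Sum.inr (Sum.inr i))))} =
      {x : Fin N → K | OnX (fun i => up (A i)) (fun i => up (F i)) (fun s => x (ε s)) ∧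
        eval (fun j => x (ε (Sum.inl j))) g ≠ 0} ∪ ⋃ t ∈ G.roots.toFinset,
        {x : Fin N → K | x (ε (Sum.inl 0)) = t ∧ ∀ i, x (ε (Sum.inr (Sum.inl i))) ^ 2 =
          (A i).eval t * x (ε (Sum.inr (Sum.inr i))) ^ 2 + (F i).eval t} := by
    ext x
    simp only [Set.mem_ofPred_eq, Set.mem_union, Set.mem_iUnion, exists_prop]
    have hx : (fun j => x (ε (Sum.inl j))) = fun _ => x (ε (Sum.inl 0)) := by
      funext j
      rw [Subsingleton.elim j 0]
    have hOn : OnX (fun i => up (A i)) (fun i => up (F i)) (fun s => x (ε s)) ↔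
        OnL A F (x (ε (Sum.inl 0))) (fun i => x (ε (Sum.inr (Sum.inl i))))
          (fun i => x (ε (Sum.inr (Sum.inr i)))) := by
      unfold OnX OnL
      simp only [eval_up]
    constructor
    · intro hL
      by_cases h0 : eval (fun j => x (ε (Sum.inl j))) g = 0
      · right
        refine ⟨x (ε (Sum.inl 0)), ?_, rfl, hL⟩
        rw [Multiset.mem_toFinset, Polynomial.mem_roots hG0, Polynomial.IsRoot, hG, ← hx]
        exact h0
      · exact Or.inl ⟨hOn.2 hL, h0⟩
    · rintro (⟨h1, -⟩ | ⟨t, -, rfl, h2⟩)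
      · exact hOn.1 h1
      · exact h2
  rw [e1]
  refine (hU N ε).fu.union (FU.iUnion _ fun t _ => ?_)
  refine FUR.fu ε ?_
  have e2 : {x : Fin 1 ⊕ (Fin m ⊕ Fin m) → K | (fun i => x (ε.symm i)) ∈
      {x : Fin N → K | x (ε (Sum.inl 0)) = t ∧ ∀ i, x (ε (Sum.inr (Sum.inl i))) ^ 2 =
        (A i).eval t * x (ε (Sum.inr (Sum.inr i))) ^ 2 + (F i).eval t}} =
      {x : Fin 1 ⊕ (Fin m ⊕ Fin m) → K | x (Sum.inl 0) = t ∧
      ∀ i, x (Sum.inr (Sum.inl i)) ^ 2 = (A i).eval t * x (Sum.inr (Sum.inr i)) ^ 2 +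
        (F i).eval t} := by
    ext x
    simp only [Set.mem_ofPred_eq, Equiv.symm_apply_apply]
  rw [e2]
  exact fur_fibre t _ _

end line

end Pool.Agent.H436.PR
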