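import Pool.Agent.H436.PR.Line
import Pool.Graph.R_seed8.R565.PU.Cp
import Pool.Graph.R_seed8.Y349.FQ.MVF

/-!
# Functions with values in a flat set on unirational sets (helper436)
-/

set_option autoImplicit false

namespace Pool.Agent.H436.PR

open MvPolynomial
open Pool.Agent.R565.PU (Unirational FU)

variable {K : Type} [Field K] [CharZero K] {O : Set K}

/-- A rational function on a unirational set with values in a flat set has at most one value. -/
theorem one_value (hO : Pool.Agent.TH783.CE.Flat O) {N : ℕ} {S : Set (Fin N → K)}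
    (hS : Unirational S) (p q : MvPolynomial (Fin N) K)
    (h : ∀ x ∈ S, eval x q ≠ 0 → eval x p / eval x q ∈ O) :
    ∃ c, ∀ x ∈ S, eval x q ≠ 0 → eval x p / eval x q = c := by
  rcases hS with rfl | ⟨m, g, P, hg, himg, hden⟩
  · exact ⟨0, fun x hx => absurd hx (Set.notMem_empty _)⟩
  obtain ⟨D, p', hp'⟩ := Pool.Agent.R565.PU.exists_clear g P p
  obtain ⟨E, q', hq'⟩ := Pool.Agent.R565.PU.exists_clear g P q
  have hp : ∀ t : Fin m → K, eval t g ≠ 0 →
      eval t p' = eval t g ^ D * eval (fun k => eval t (P k) / eval t g) p := by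
    intro t ht
    have := hp' K t (by rwa [ae])
    simpa only [ae] using this
  have hq : ∀ t : Fin m → K, eval t g ≠ 0 →
      eval t q' = eval t g ^ E * eval (fun k => eval t (P k) / eval t g) q := by
    intro t ht
    have := hq' K t (by rwa [ae])
    simpa only [ae] using this
  by_cases hq0 : q' = 0
  · refine ⟨0, fun x hx hqx => absurd (hden q (fun t ht => ?_) x hx) hqx⟩
    have h1 := hq t ht
    rw [hq0, map_zero] at h1
    exact (mul_eq_zero.1 h1.symm).resolve_left (pow_ne_zero _ ht)
  · obtain ⟨c, hc⟩ := Pool.Agent.Y349.FQ.mvf K O hO (Fin m) (p' * g ^ E) (q' * g ^ D) g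
      (mul_ne_zero hq0 (pow_ne_zero _ hg)) hg (by
        intro t h1 h2
        rw [map_mul, map_pow] at h1
        have h3 := left_ne_zero_of_mul h1
        rw [hq t h2] at h3
        have h4 := h _ (himg t h2) (right_ne_zero_of_mul h3)
        have h5 : eval t (p' * g ^ E) / eval t (q' * g ^ D) =
            eval (fun k => eval t (P k) / eval t g) p / eval (fun k => eval t (P k) / eval t g) q := by
          rw [map_mul, map_mul, map_pow, map_pow, hp t h2, hq t h2]
          have := right_ne_zero_of_mul h3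
          field_simp
        rw [h5]
        exact h4)
    refine ⟨c, fun x hx hqx => ?_⟩
    have h1 := hden (p - C c * q) (fun t ht => ?_) x hx
    · rw [map_sub, map_mul, eval_C, sub_eq_zero] at h1
      rw [h1, mul_div_cancel_right₀ _ hqx]
    · have h2 := congrArg (eval t) hc
      rw [map_mul, map_mul, map_mul, map_pow, map_pow, eval_C, hp t ht, hq t ht] at h2
      rw [map_sub, map_mul, eval_C]
      have h3 : eval t g ^ (D + E) * (eval (fun k => eval t (P k) / eval t g) p -
          c * eval (fun k => eval t (P k) / eval t g) q) = 0 := by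
        rw [pow_add]
        linear_combination h2
      exact (mul_eq_zero.1 h3).resolve_left (pow_ne_zero _ ht)

/-- the number of the coordinates -/
noncomputable def nm (n m : ℕ) : Fin n ⊕ (Fin m ⊕ Fin m) ≃ Fin (n + (m + m)) :=
  (Equiv.sumCongr (Equiv.refl _) finSumFinEquiv).trans finSumFinEquiv

/-- the values of a rational function on a fibre product of conic bundles over the line -/
theorem fin_line (hO : Pool.Agent.TH783.CE.Flat O) (φ : K →+* ℂ) {m : ℕ}
    {A F : Fin m → Polynomial K} (hs : SD A F) (P R : MvPolynomial (Fin 1 ⊕ (Fin m ⊕ Fin m)) K)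
    (h : ∀ (t : K) (w y : Fin m → K), OnL A F t w y →
      eval (Sum.elim (fun _ => t) (Sum.elim w y)) R ≠ 0 →
      eval (Sum.elim (fun _ => t) (Sum.elim w y)) P /
        eval (Sum.elim (fun _ => t) (Sum.elim w y)) R ∈ O) :
    {a | ∃ (t : K) (w y : Fin m → K), OnL A F t w y ∧
      eval (Sum.elim (fun _ => t) (Sum.elim w y)) R ≠ 0 ∧
      a = eval (Sum.elim (fun _ => t) (Sum.elim w y)) P /
        eval (Sum.elim (fun _ => t) (Sum.elim w y)) R}.Finite := by
  have h1 := (fu_line hs (nm 1 m)).blk2.fcp hO φ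
  have h2 : ∀ x : Fin (1 + (m + m)) → K, (fun s => x (nm 1 m s)) =
      (Sum.elim (fun _ => x (nm 1 m (Sum.inl 0))) (Sum.elim
        (fun i => x (nm 1 m (Sum.inr (Sum.inl i)))) fun i => x (nm 1 m (Sum.inr (Sum.inr i)))) :
        Fin 1 ⊕ (Fin m ⊕ Fin m) → K) := by
    intro x
    funext s
    rcases s with j | i | i
    · rw [Subsingleton.elim j 0]; rfl
    · rfl
    · rfl
  have h3 : ∀ (x : Fin (1 + (m + m)) → K) (G : MvPolynomial (Fin 1 ⊕ (Fin m ⊕ Fin m)) K),
      eval x (rename (nm 1 m) G) = eval (Sum.elim (fun _ => x (nm 1 m (Sum.inl 0))) (Sum.elim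
        (fun i => x (nm 1 m (Sum.inr (Sum.inl i)))) fun i => x (nm 1 m (Sum.inr (Sum.inr i))))) G := by
    intro x G
    rw [eval_rename, ← h2]
    rfl
  refine (h1.values (rename (nm 1 m) P) (rename (nm 1 m) R) fun x hx hx' => ?_).subset ?_
  · rw [h3] at hx'
    rw [h3, h3]
    exact h _ _ _ hx hx'
  · rintro a ⟨t, w, y, hx, hR, rfl⟩
    refine ⟨fun i => Sum.elim (fun _ => t) (Sum.elim w y) ((nm 1 m).symm i), ?_, ?_, ?_⟩
    · simp only [Set.mem_ofPred_eq, Equiv.symm_apply_apply, Sum.elim_inl, Sum.elim_inr]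
      exact hx
    · rw [h3]
      simp only [Equiv.symm_apply_apply, Sum.elim_inl, Sum.elim_inr]
      exact hR
    · rw [h3, h3]
      simp only [Equiv.symm_apply_apply, Sum.elim_inl, Sum.elim_inr]

end Pool.Agent.H436.PR
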