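import Pool.Agent.H436.FP.Fam
import Pool.Agent.H436.CW.Dense
import Pool.Graph.R_seed8.R565.PU.Uni

/-!
# Parametrizations of the points of fibre products of conic bundles (helper436)
-/

set_option autoImplicit false

namespace Pool.Agent.H436.PR

open Pool.Agent.H436.HP Pool.Agent.H436.HQ Pool.Agent.H436.FP Pool.Agent.TH178.HI MvPolynomial

section den

variable {k E : Type} [Field k] [Field E] [Algebra k E]

lemma common_den {ι σ : Type} [Fintype σ] {u : ι → E} {x : σ → E}
    (hx : ∀ s, x s ∈ IntermediateField.adjoin k (Set.range u)) :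
    ∃ (q : MvPolynomial ι k) (P : σ → MvPolynomial ι k), aeval u q ≠ 0 ∧
      ∀ s, aeval u (P s) / aeval u q = x s := by
  classical
  have h1 : ∀ s, ∃ (q p : MvPolynomial ι k), aeval u q ≠ 0 ∧ aeval u p / aeval u q = x s := by
    intro s
    obtain ⟨r, t, hrt⟩ := (IntermediateField.mem_adjoin_range_iff k u (x s)).1 (hx s)
    by_cases h : aeval u t = 0
    · exact ⟨1, 0, by simp, by rw [hrt, h]; simp⟩
    · exact ⟨t, r, h, hrt.symm⟩
  choose q p hq hp using h1
  refine ⟨∏ s, q s, fun s => p s * ∏ t ∈ Finset.univ.erase s, q t, ?_, fun s => ?_⟩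
  · rw [map_prod]
    exact Finset.prod_ne_zero_iff.2 fun s _ => hq s
  · have e : ∏ s, q s = q s * ∏ t ∈ Finset.univ.erase s, q t :=
      (Finset.mul_prod_erase _ _ (Finset.mem_univ s)).symm
    rw [e, map_mul, map_mul, mul_div_mul_right _ _ ?_]
    · exact hp s
    · rw [map_prod]
      exact Finset.prod_ne_zero_iff.2 fun t _ => hq t

end den

section tower

variable {k : Type} [Field k] [CharZero k] {n m : ℕ}

/-- A generic point of the base, over a field of rational functions, in whose fibre there is a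
point. -/
def Sec (a f : Fin m → MvPolynomial (Fin n) k) : Prop :=
  ∃ (E : Type) (_ : Field E) (_ : Algebra k E) (Ω : IntermediateField k E) (z : Fin n → E)
    (b v : Fin m → E), Pure Ω ∧ (∀ i, z i ∈ Ω) ∧ AlgebraicIndependent k z ∧
    (∀ i, b i ∈ Ω) ∧ (∀ i, v i ∈ Ω) ∧ ∀ i, v i ^ 2 = aeval z (a i) * b i ^ 2 + aeval z (f i)

theorem sec_good {a f : Fin m → MvPolynomial (Fin n) k} (hT : Typ a f)
    {H : MvPolynomial (Fin n) k} (hH : ∀ (E : Type) [Field E] [Algebra k E] (z : Fin n → E),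
      MvPolynomial.aeval z H ≠ 0 → GoodF a f z)
    {c : Fin n → k} (hc : MvPolynomial.eval c H ≠ 0)
    (hXY : ∀ i, ∃ X Y W : k, ¬ (X = 0 ∧ Y = 0 ∧ W = 0) ∧
      X ^ 2 = MvPolynomial.eval c (a i) * Y ^ 2 + MvPolynomial.eval c (f i) * W ^ 2) :
    Sec a f := by
  let F := FractionRing (MvPolynomial ℕ k)
  let E := AlgebraicClosure F
  let x : ℕ → E := fun i => algebraMap F E (algebraMap (MvPolynomial ℕ k) F (MvPolynomial.X i))
  have hx : AlgebraicIndependent k x := by
    have h1 := (MvPolynomial.algebraicIndependent_X ℕ k).map'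
      (f := IsScalarTower.toAlgHom k (MvPolynomial ℕ k) F)
      (IsFractionRing.injective (MvPolynomial ℕ k) F)
    exact h1.map' (f := IsScalarTower.toAlgHom k F E) (algebraMap F E).injective
  have : CharZero E := charZero_of_injective_algebraMap (algebraMap k E).injective
  have hinj := (algebraMap k E).injective
  obtain ⟨z, Ω, -, hz, hp, hΩ, hind, hsp⟩ := tower (E := E) hT (hH E) hx hc
    (fun i => by
      obtain ⟨X, Y, W, h0, hXY⟩ := hXY i
      exact ⟨algebraMap k E X, IntermediateField.algebraMap_mem _ _, algebraMap k E Y,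
        IntermediateField.algebraMap_mem _ _, algebraMap k E W,
        IntermediateField.algebraMap_mem _ _, fun h => h0
          ⟨(map_eq_zero_iff _ hinj).1 h.1, (map_eq_zero_iff _ hinj).1 h.2.1,
            (map_eq_zero_iff _ hinj).1 h.2.2⟩, by
        rw [← map_pow, hXY, map_add, map_mul, map_mul, map_pow, map_pow]⟩) n le_rfl
  have hind' : AlgebraicIndependent k z := by
    have h2 := hind.comp (fun i : Fin n => (⟨i, i.2⟩ : {i : Fin n | (i : ℕ) < n})) (fun i j h => by
      simpa using h)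
    exact h2
  have hg := (hH E z (by
    refine good (m := n) (c := c) hind (fun i hi => absurd i.2 (not_lt.2 hi)) hc)).1
  have haΩ : ∀ g : MvPolynomial (Fin n) k, MvPolynomial.aeval z g ∈ Ω := fun g =>
    aeval_mem' (fun i => hz i) g
  have h3 : ∀ i, ∃ b ∈ Ω, ∃ v ∈ Ω, v ^ 2 = aeval z (a i) * b ^ 2 + aeval z (f i) := fun i =>
    (hsp i).affine (haΩ _) (hg (Sum.inl i))
  choose b hb v hv hbv using h3
  exact ⟨E, inferInstance, inferInstance, Ω, z, b, v, hp, hz, hind', hb, hv, hbv⟩

/-- **Sections over rational bases.** -/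
theorem exists_sec {a f : Fin m → MvPolynomial (Fin n) k}
    (ha : ∀ i, a i ≠ 0) (hf : ∀ i, f i ≠ 0) (hT : Typ a f) :
    ∃ h : MvPolynomial (Fin n) k, h ≠ 0 ∧ ∀ c : Fin n → k, eval c h ≠ 0 →
      (∀ i, ∃ X Y W : k, ¬ (X = 0 ∧ Y = 0 ∧ W = 0) ∧
        X ^ 2 = eval c (a i) * Y ^ 2 + eval c (f i) * W ^ 2) → Sec a f := by
  choose s a' ha' hsa using fun i => exists_sq (ha i)
  choose ρ f' hf' hsf using fun i => exists_sq (hf i)
  have hs : ∀ i, s i ≠ 0 := fun i h => ha i (by rw [ha', h]; ring)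
  have hρ : ∀ i, ρ i ≠ 0 := fun i h => hf i (by rw [hf', h]; ring)
  obtain ⟨H, hH, hH'⟩ := exists_Hfam (g := Sum.elim a' f') (by
    rintro (i | i)
    · exact hsa i
    · exact hsf i)
  have hdeg : ∀ (s g : MvPolynomial (Fin n) k) (j : Fin n), s ≠ 0 → g ≠ 0 →
      degreeOf j g ≤ degreeOf j (s ^ 2 * g) := fun s g j hs hg => by
    rw [degreeOf_mul_eq (pow_ne_zero 2 hs) hg]
    omega
  have hda : ∀ i j, degreeOf j (a' i) ≤ degreeOf j (a i) := fun i j => by
    rw [ha' i]; exact hdeg _ _ _ (hs i) (hsa i).ne_zero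
  have hdf : ∀ i j, degreeOf j (f' i) ≤ degreeOf j (f i) := fun i j => by
    rw [hf' i]; exact hdeg _ _ _ (hρ i) (hsf i).ne_zero
  refine ⟨(∏ i, (s i * ρ i)) * H, mul_ne_zero (Finset.prod_ne_zero_iff.2 fun i _ =>
    mul_ne_zero (hs i) (hρ i)) hH, ?_⟩
  intro c hc hXY
  rw [map_mul, map_prod] at hc
  have hc1 : ∀ i, eval c (s i) ≠ 0 ∧ eval c (ρ i) ≠ 0 := fun i => by
    have h1 := Finset.prod_ne_zero_iff.1 (left_ne_zero_of_mul hc) i (Finset.mem_univ i)
    rw [map_mul] at h1
    exact ⟨left_ne_zero_of_mul h1, right_ne_zero_of_mul h1⟩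
  obtain ⟨t1, t2, t3⟩ := hT
  have hsec : Sec a' f' := by
    refine sec_good (a := a') (f := f') (H := H) (c := c) ⟨?_, ?_, ?_⟩ ?_
      (right_ne_zero_of_mul hc) ?_
    · intro j i
      rcases t1 j i with h | h
      · refine Or.inl fun h' => h ?_
        rw [mem_vars_iff_degreeOf_ne_zero] at h' ⊢
        have := hda i j
        omega
      · refine Or.inr fun h' => h ?_
        rw [mem_vars_iff_degreeOf_ne_zero] at h' ⊢
        have := hdf i j
        omega
    · intro j
      refine (Finset.card_le_card fun i hi => ?_).trans (t2 j)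
      rw [Finset.mem_filter] at hi ⊢
      have h1 := hda i j
      have h2 := hdf i j
      exact ⟨Finset.mem_univ _, by have := hi.2; omega⟩
    · intro j
      refine (Finset.sum_le_sum fun i _ => ?_).trans (t3 j)
      have h1 := hda i j
      have h2 := hdf i j
      omega
    · intro E _ _ z hz
      exact hH' E z hz
    · intro i
      obtain ⟨X, Y, W, h0, hX⟩ := hXY i
      refine ⟨X, eval c (s i) * Y, eval c (ρ i) * W, ?_, ?_⟩
      · rintro ⟨h1, h2, h3⟩
        exact h0 ⟨h1, (mul_eq_zero.1 h2).resolve_left (hc1 i).1,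
          (mul_eq_zero.1 h3).resolve_left (hc1 i).2⟩
      · rw [hX, ha', hf', map_mul, map_mul, map_pow, map_pow]
        ring
  obtain ⟨E, _, _, Ω, z, b, v, hp, hz, hind, hb, hv, hbv⟩ := hsec
  have haΩ : ∀ g : MvPolynomial (Fin n) k, MvPolynomial.aeval z g ∈ Ω := fun g =>
    aeval_mem' (fun i => hz i) g
  have hne : ∀ g : MvPolynomial (Fin n) k, g ≠ 0 → aeval z g ≠ 0 := fun g hg h =>
    hg (hind (by rw [h, map_zero]))
  refine ⟨E, inferInstance, inferInstance, Ω, z, fun i => aeval z (ρ i) * b i / aeval z (s i),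
    fun i => aeval z (ρ i) * v i, hp, hz, hind, fun i => ?_, fun i => ?_, fun i => ?_⟩
  · exact div_mem (mul_mem (haΩ _) (hb i)) (haΩ _)
  · exact mul_mem (haΩ _) (hv i)
  · have h1 := hne _ (hs i)
    rw [ha' i, hf' i, map_mul, map_mul, map_pow, map_pow, mul_pow, hbv i]
    field_simp

end tower

end Pool.Agent.H436.PR
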