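import Pool.Agent.H436.PR.Uni
import Pool.Graph.R_seed8.R565.PU.Quad

/-!
# Finite unions and products of unirational sets (helper436)
-/

set_option autoImplicit false

namespace Pool.Agent.H436.PR

open MvPolynomial
open Pool.Agent.R565.PU (Unirational FU fu_quadric)

variable {K : Type} [Field K]

/-- a unirational set, arbitrary names of the coordinates -/
def UR {σ : Type} (S : Set (σ → K)) : Prop :=
  S = ∅ ∨ ∃ (κ : Type) (_ : Finite κ) (D : MvPolynomial κ K) (p q : σ → MvPolynomial κ K),
    IsPar S D p q

/-- finite unions of unirational sets -/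
def FUR {σ : Type} (S : Set (σ → K)) : Prop :=
  ∃ (ν : Type) (_ : Finite ν) (Y : ν → Set (σ → K)), (∀ i, UR (Y i)) ∧ S = ⋃ i, Y i

lemma UR.unirational {σ : Type} {N : ℕ} (ε : σ ≃ Fin N) {S : Set (Fin N → K)}
    (h : UR {x : σ → K | (fun i => x (ε.symm i)) ∈ S}) : Unirational S := by
  rcases h with h | ⟨κ, hκ, D, p, q, h⟩
  · left
    rw [Set.eq_empty_iff_forall_notMem] at h ⊢
    intro x hx
    refine h (fun s => x (ε s)) ?_
    change (fun i => x (ε (ε.symm i))) ∈ S
    simpa using hx
  · exact h.unirational ε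

lemma UR.of_unirational {N : ℕ} {S : Set (Fin N → K)} (h : Unirational S) : UR S := by
  rcases h with h | ⟨m, g, P, hg, h1, h2⟩
  · exact Or.inl h
  · by_cases hN : Nonempty (Fin N)
    · obtain ⟨s₀⟩ := hN
      refine Or.inr ⟨Fin m, inferInstance, g, P, fun _ => g, hg, fun _ => hg,
        fun e he _ => h1 e he, fun h hh x hx => h2 h (fun t ht => hh t ht fun _ => ht) x hx⟩
    · refine Or.inr ⟨Fin m, inferInstance, g, P, fun _ => g, hg, fun _ => hg,
        fun e he _ => h1 e he, fun h hh x hx => h2 h (fun t ht => hh t ht fun _ => ht) x hx⟩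

lemma FUR.fu {σ : Type} {N : ℕ} (ε : σ ≃ Fin N) {S : Set (Fin N → K)}
    (h : FUR {x : σ → K | (fun i => x (ε.symm i)) ∈ S}) : FU S := by
  obtain ⟨ν, hν, Y, hY, hS⟩ := h
  have : Fintype ν := Fintype.ofFinite ν
  let eν := Fintype.equivFin ν
  refine ⟨Fintype.card ν, fun i => {x : Fin N → K | (fun s => x (ε s)) ∈ Y (eν.symm i)},
    fun i => ?_, ?_⟩
  · apply UR.unirational ε
    have e1 : {x : σ → K | (fun i => x (ε.symm i)) ∈
        {x : Fin N → K | (fun s => x (ε s)) ∈ Y (eν.symm i)}} = Y (eν.symm i) := by
      ext x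
      simp only [Set.mem_ofPred_eq, Equiv.symm_apply_apply]
    rw [e1]
    exact hY _
  · ext x
    have h1 : x ∈ S ↔ (fun s => x (ε s)) ∈ {x : σ → K | (fun i => x (ε.symm i)) ∈ S} := by
      simp only [Set.mem_ofPred_eq, Equiv.apply_symm_apply]
    rw [h1, hS]
    simp only [Set.mem_iUnion, Set.mem_ofPred_eq]
    constructor
    · rintro ⟨i, hi⟩
      exact ⟨eν i, by rw [Equiv.symm_apply_apply]; exact hi⟩
    · rintro ⟨i, hi⟩
      exact ⟨_, hi⟩

lemma FUR.of_fu {N : ℕ} {S : Set (Fin N → K)} (h : FU S) : FUR S := by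
  obtain ⟨k, Y, hY, hS⟩ := h
  exact ⟨Fin k, inferInstance, Y, fun i => UR.of_unirational (hY i), hS⟩

lemma FU.iUnion {N : ℕ} {ν : Type} (T : Finset ν) {S : ν → Set (Fin N → K)}
    (h : ∀ i ∈ T, FU (S i)) : FU (⋃ i ∈ T, S i) := by
  classical
  induction T using Finset.induction_on with
  | empty =>
    refine ⟨0, fun i => Fin.elim0 i, fun i => Fin.elim0 i, ?_⟩
    ext x
    simp
  | insert j T hj ih =>
    rw [Finset.set_biUnion_insert]
    exact (h j (Finset.mem_insert_self _ _)).union
      (ih fun i hi => h i (Finset.mem_insert_of_mem hi))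

/-- The set of the points all of whose blocks of coordinates are in given sets. -/
def Prd {ν : Type} {σ : ν → Type} (S : ∀ i, Set (σ i → K)) : Set ((Σ i, σ i) → K) :=
  {x | ∀ i, (fun s => x ⟨i, s⟩) ∈ S i}

/-- fixing the coordinates outside a block -/
lemma exists_blk {ν : Type} [DecidableEq ν] {σ : ν → Type} (h : MvPolynomial (Σ i, σ i) K)
    (x : (Σ i, σ i) → K) (j : ν) :
    ∃ g : MvPolynomial (σ j) K, ∀ y : σ j → K, eval y g =
      eval (fun s => if hs : s.1 = j then y (hs ▸ s.2) else x s) h := by
  refine ⟨aeval (fun s : Σ i, σ i => if hs : s.1 = j then X (hs ▸ s.2) else C (x s)) h,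
    fun y => ?_⟩
  induction h using MvPolynomial.induction_on with
  | C a => simp
  | add p q hp hq => simp only [map_add, hp, hq]
  | mul_X p i hp =>
    simp only [map_mul, hp, aeval_X, eval_X]
    congr 1
    split_ifs with hs
    · rw [eval_X]
    · rw [eval_C]

theorem UR.prd {ν : Type} [Finite ν] {σ : ν → Type} {S : ∀ i, Set (σ i → K)}
    (h : ∀ i, UR (S i)) : UR (Prd S) := by
  classical
  by_cases hne : ∃ i, S i = ∅
  · left
    obtain ⟨i, hi⟩ := hne
    rw [Set.eq_empty_iff_forall_notMem]
    intro x hx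
    have := hx i
    rw [hi] at this
    exact this
  push Not at hne
  have : Fintype ν := Fintype.ofFinite ν
  have h1 : ∀ i, ∃ (κ : Type) (_ : Finite κ) (D : MvPolynomial κ K)
      (p q : σ i → MvPolynomial κ K), IsPar (S i) D p q := fun i => (h i).resolve_left
    (Set.Nonempty.ne_empty (hne i))
  choose κ hκ D p q hpar using h1
  let r : ∀ i, MvPolynomial (κ i) K → MvPolynomial (Σ i, κ i) K := fun i => rename (Sigma.mk i)
  have hr : ∀ i (e : (Σ i, κ i) → K) (F : MvPolynomial (κ i) K),
      eval e (r i F) = eval (fun c => e ⟨i, c⟩) F := fun i e F => eval_rename _ _ _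
  have hr0 : ∀ i (F : MvPolynomial (κ i) K), F ≠ 0 → r i F ≠ 0 := fun i F hF h0 =>
    hF (rename_injective _ sigma_mk_injective (by
      change r i F = rename (Sigma.mk i) 0
      rw [h0, map_zero]))
  refine Or.inr ⟨Σ i, κ i, inferInstance, ∏ i, r i (D i), fun s => r s.1 (p s.1 s.2),
    fun s => r s.1 (q s.1 s.2), ?_, ?_, ?_, ?_⟩
  · exact Finset.prod_ne_zero_iff.2 fun i _ => hr0 i _ (hpar i).D_ne
  · exact fun s => hr0 _ _ ((hpar s.1).q_ne s.2)
  · intro e he hq i
    rw [map_prod] at he
    have h2 := Finset.prod_ne_zero_iff.1 he i (Finset.mem_univ i)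
    rw [hr] at h2
    have h3 := (hpar i).mem (fun c => e ⟨i, c⟩) h2 (fun s => by
      have := hq ⟨i, s⟩
      rw [hr] at this
      exact this)
    simp only [hr]
    exact h3
  · intro F hF x hx
    -- the parametrized point
    let P : ((Σ i, κ i) → K) → (Σ i, σ i) → K := fun e s =>
      eval (fun c => e ⟨s.1, c⟩) (p s.1 s.2) / eval (fun c => e ⟨s.1, c⟩) (q s.1 s.2)
    have claim : ∀ T : Finset ν, ∀ e : (Σ i, κ i) → K, (∀ i, eval (fun c => e ⟨i, c⟩) (D i) ≠ 0) →
        (∀ i s, eval (fun c => e ⟨i, c⟩) (q i s) ≠ 0) →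
        eval (fun s => if s.1 ∈ T then x s else P e s) F = 0 := by
      intro T
      induction T using Finset.induction_on with
      | empty =>
        intro e he hq
        have h3 := hF e (by
          rw [map_prod]
          exact Finset.prod_ne_zero_iff.2 fun i _ => by rw [hr]; exact he i) (fun s => by
          rw [hr]; exact hq s.1 s.2)
        have e1 : (fun s : Σ i, σ i => if s.1 ∈ (∅ : Finset ν) then x s else P e s) =
            fun s => eval e (r s.1 (p s.1 s.2)) / eval e (r s.1 (q s.1 s.2)) := by
          funext s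
          rw [if_neg (Finset.notMem_empty _), hr, hr]
        rw [e1]
        exact h3
      | insert j T hj ih =>
        intro e he hq
        obtain ⟨G, hG⟩ := exists_blk F (fun s => if s.1 ∈ T then x s else P e s) j
        have h3 : eval (fun s => x ⟨j, s⟩) G = 0 := by
          refine (hpar j).dense G (fun c hc hcq => ?_) _ (hx j)
          rw [hG]
          obtain ⟨e', he'⟩ : ∃ e' : (Σ i, κ i) → K, e' = fun s =>
            if hs : s.1 = j then c (hs ▸ s.2) else e s := ⟨_, rfl⟩
          have hej : (fun c' => e' ⟨j, c'⟩) = c := by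
            funext c'
            rw [he']
            simp
          have hei : ∀ i, i ≠ j → (fun c' => e' ⟨i, c'⟩) = fun c' => e ⟨i, c'⟩ := by
            intro i hi
            funext c'
            rw [he']
            simp [hi]
          have h4 := ih e' (fun i => by
            by_cases hi : i = j
            · subst hi
              rw [hej]; exact hc
            · rw [hei i hi]; exact he i) (fun i s => by
            by_cases hi : i = j
            · subst hi
              rw [hej]; exact hcq s
            · rw [hei i hi]; exact hq i s)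
          rw [← h4]
          congr 2
          funext s
          obtain ⟨i, s⟩ := s
          by_cases hi : i = j
          · subst hi
            simp only [dite_true]
            rw [if_neg hj]
            simp only [P]
            rw [hej]
          · simp only [hi, dite_false]
            by_cases hiT : i ∈ T
            · rw [if_pos hiT, if_pos hiT]
            · rw [if_neg hiT, if_neg hiT]
              simp only [P]
              rw [hei i hi]
        rw [hG] at h3
        rw [← h3]
        congr 2
        funext s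
        obtain ⟨i, s⟩ := s
        by_cases hi : i = j
        · subst hi
          simp
        · simp only [Finset.mem_insert, hi, false_or, dite_false]
    by_cases hex : ∃ e : (Σ i, κ i) → K, (∀ i, eval (fun c => e ⟨i, c⟩) (D i) ≠ 0) ∧
        ∀ i s, eval (fun c => e ⟨i, c⟩) (q i s) ≠ 0
    · obtain ⟨e, he, hq⟩ := hex
      have h3 := claim Finset.univ e he hq
      simpa using h3
    · -- one of the parametrizations has no point, so the set is empty
      exfalso
      push Not at hex
      have h4 : ∃ i, ∀ c : κ i → K, eval c (D i) ≠ 0 → ∃ s, eval c (q i s) = 0 := by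
        by_contra hcon
        push Not at hcon
        choose c hc1 hc2 using hcon
        obtain ⟨i, s, his⟩ := hex (fun s => c s.1 s.2) hc1
        exact hc2 i s his
      obtain ⟨i, hi⟩ := h4
      have h5 := (hpar i).dense 1 (fun c hc hcq => by
        obtain ⟨s, hs⟩ := hi c hc
        exact absurd hs (hcq s)) _ (hx i)
      rw [map_one] at h5
      exact one_ne_zero h5

theorem FUR.prd {ν : Type} [Finite ν] {σ : ν → Type} {S : ∀ i, Set (σ i → K)}
    (h : ∀ i, FUR (S i)) : FUR (Prd S) := by
  choose μ hμ Y hY hS using h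
  refine ⟨∀ i, μ i, inferInstance, fun c => Prd fun i => Y i (c i), fun c => UR.prd fun i => hY i _,
    ?_⟩
  ext x
  simp only [Set.mem_iUnion]
  constructor
  · intro hx
    have h1 : ∀ i, ∃ c, (fun s => x ⟨i, s⟩) ∈ Y i c := fun i => by
      have := hx i
      rw [hS i] at this
      exact Set.mem_iUnion.1 this
    choose c hc using h1
    exact ⟨c, hc⟩
  · rintro ⟨c, hc⟩ i
    rw [hS i]
    exact Set.mem_iUnion.2 ⟨c i, hc i⟩

/-- change of the names of the coordinates -/
lemma UR.reindex {σ τ : Type} (e : σ ≃ τ) {S : Set (σ → K)} (h : UR S) :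
    UR {x : τ → K | (fun s => x (e s)) ∈ S} := by
  rcases h with h | ⟨κ, hκ, D, p, q, h⟩
  · left
    rw [Set.eq_empty_iff_forall_notMem] at h ⊢
    exact fun x hx => h _ hx
  · refine Or.inr ⟨κ, hκ, D, fun t => p (e.symm t), fun t => q (e.symm t), h.D_ne,
      fun t => h.q_ne _, fun c hc hq => ?_, fun F hF x hx => ?_⟩
    · have h1 := h.mem c hc (fun s => by simpa using hq (e s))
      change (fun s => _) ∈ S
      simpa using h1
    · have h1 := h.dense (rename e.symm F) (fun c hc hq => ?_) (fun s => x (e s)) hx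
      · rw [eval_rename] at h1
        have e2 : (fun s => x (e s)) ∘ e.symm = x := by
          funext t
          simp
        rwa [e2] at h1
      · rw [eval_rename]
        exact hF c hc fun t => hq _

lemma FUR.reindex {σ τ : Type} (e : σ ≃ τ) {S : Set (σ → K)} (h : FUR S) :
    FUR {x : τ → K | (fun s => x (e s)) ∈ S} := by
  obtain ⟨ν, hν, Y, hY, hS⟩ := h
  refine ⟨ν, hν, fun i => {x : τ → K | (fun s => x (e s)) ∈ Y i}, fun i => (hY i).reindex e, ?_⟩
  ext x
  rw [hS]
  simp only [Set.mem_iUnion, Set.mem_ofPred_eq]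

lemma FUR.single {σ : Type} [Finite σ] (c : σ → K) : FUR ({c} : Set (σ → K)) := by
  refine ⟨Unit, inferInstance, fun _ => {c}, fun _ => Or.inr ⟨Empty, inferInstance, 1,
    fun s => C (c s), fun _ => 1, one_ne_zero, fun _ => one_ne_zero, ?_, ?_⟩, ?_⟩
  · intro e _ _
    simp
  · intro h hh x hx
    rw [Set.mem_singleton_iff] at hx
    have := hh Empty.elim (by simp) (by simp)
    rw [hx]
    simpa using this
  · simp

end Pool.Agent.H436.PR
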