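import Pool.Agent.H436.PR.Par

/-!
# Parametrizations of the points, polynomial form (helper436)
-/

set_option autoImplicit false

namespace Pool.Agent.H436.PR

open Pool.Agent.H436.HP Pool.Agent.H436.HQ Pool.Agent.H436.FP Pool.Agent.TH178.HI MvPolynomial
open Pool.Agent.H436.CW Pool.Agent.H436.CB

section poly

variable {k : Type} [Field k] [CharZero k] {n m : ℕ}

/-- the equations -/
noncomputable def eqn (a f : Fin m → MvPolynomial (Fin n) k) (i : Fin m) :
    MvPolynomial (Fin n ⊕ (Fin m ⊕ Fin m)) k :=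
  X (Sum.inr (Sum.inl i)) ^ 2 - rename Sum.inl (a i) * X (Sum.inr (Sum.inr i)) ^ 2 -
    rename Sum.inl (f i)

/-- the value of the tuple of rational functions `P / q` at `e` -/
noncomputable def qv {ι σ : Type} (P : σ → MvPolynomial ι k) (q : MvPolynomial ι k) (e : ι → k) :
    σ → k :=
  fun s => eval e (P s) / eval e q

omit [CharZero k] in
lemma ae {τ : Type} (e : τ → k) (p : MvPolynomial τ k) : aeval e p = eval e p := by
  rw [← coe_aeval_eq_eval]
  rfl

theorem sec_poly {a f : Fin m → MvPolynomial (Fin n) k} (h : Sec a f) :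
    ∃ (ι : Type) (_ : Finite ι) (q : MvPolynomial ι k) (Z : Fin n → MvPolynomial ι k)
      (B V : Fin m → MvPolynomial ι k), q ≠ 0 ∧
      (∀ e : ι → k, eval e q ≠ 0 → ∀ i, qv V q e i ^ 2 =
        eval (qv Z q e) (a i) * qv B q e i ^ 2 + eval (qv Z q e) (f i)) ∧
      ∀ D : MvPolynomial ι k, D ≠ 0 → ∀ G : MvPolynomial (Fin n) k,
        (∀ e : ι → k, eval e q ≠ 0 → eval e D ≠ 0 → eval (qv Z q e) G = 0) → G = 0 := by
  classical
  obtain ⟨E, _, _, Ω, z, b, v, ⟨ι, hι, u, hu, hΩ⟩, hz, hind, hb, hv, hbv⟩ := h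
  obtain ⟨q, P, hq, hP⟩ := common_den (k := k) (E := E) (u := u)
    (x := (Sum.elim z (Sum.elim v b) : Fin n ⊕ (Fin m ⊕ Fin m) → E)) (by
      rw [hΩ]
      rintro (j | i | i)
      · exact hz j
      · exact hv i
      · exact hb i)
  have hq0 : q ≠ 0 := by
    rintro rfl
    exact hq (map_zero _)
  have hxf : (fun s => aeval u (P s) / aeval u q) =
      (Sum.elim z (Sum.elim v b) : Fin n ⊕ (Fin m ⊕ Fin m) → E) := by
    funext s
    exact hP s
  refine ⟨ι, hι, q, fun j => P (Sum.inl j), fun i => P (Sum.inr (Sum.inr i)),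
    fun i => P (Sum.inr (Sum.inl i)), hq0, ?_, ?_⟩
  · intro e he i
    obtain ⟨N, H, hH⟩ := Pool.Agent.R565.PU.exists_clear q P (eqn a f i)
    have h1 : aeval u H = 0 := by
      rw [hH E u hq, hxf]
      have h2 : aeval (Sum.elim z (Sum.elim v b) : Fin n ⊕ (Fin m ⊕ Fin m) → E) (eqn a f i) = 0 := by
        rw [eqn, map_sub, map_sub, map_mul, map_pow, map_pow, aeval_X, aeval_X, aeval_rename,
          aeval_rename]
        have e1 : ((Sum.elim z (Sum.elim v b) : Fin n ⊕ (Fin m ⊕ Fin m) → E) ∘ Sum.inl) = z := by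
          funext j; rfl
        rw [e1]
        change v i ^ 2 - aeval z (a i) * b i ^ 2 - aeval z (f i) = 0
        rw [hbv i]
        ring
      rw [h2, mul_zero]
    have h2 : H = 0 := hu (by rw [h1, map_zero])
    have he' : aeval e q ≠ 0 := by
      rw [← coe_aeval_eq_eval] at he
      exact he
    have h3 := hH k e he'
    rw [h2, map_zero] at h3
    have h4 := (mul_eq_zero.1 h3.symm).resolve_left (pow_ne_zero _ he')
    rw [eqn, map_sub, map_sub, map_mul, map_pow, map_pow, aeval_X, aeval_X, aeval_rename,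
      aeval_rename] at h4
    have e2 : ((fun s => aeval e (P s) / aeval e q) ∘ Sum.inl) =
        qv (fun j => P (Sum.inl j)) q e := by
      funext j
      rw [Function.comp_apply, ae, ae, qv]
    rw [e2] at h4
    simp only [ae] at h4
    simp only [qv] at h4 ⊢
    linear_combination h4
  · intro D hD G hG
    obtain ⟨N, H, hH⟩ := Pool.Agent.R565.PU.exists_clear q P (rename Sum.inl G)
    have hinf : Infinite k := CharZero.infinite k
    have h0 : H * (q * D) = 0 := by
      refine MvPolynomial.funext fun e => ?_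
      rw [map_mul, map_mul, map_zero]
      by_cases h1 : eval e q = 0
      · rw [h1, zero_mul, mul_zero]
      by_cases h2 : eval e D = 0
      · rw [h2, mul_zero, mul_zero]
      have he' : aeval e q ≠ 0 := by
        rw [← coe_aeval_eq_eval] at h1
        exact h1
      have h3 := hH k e he'
      have h4 := hG e h1 h2
      rw [aeval_rename] at h3
      have h5 : aeval ((fun s => aeval e (P s) / aeval e q) ∘ Sum.inl) G =
          eval (qv (fun j => P (Sum.inl j)) q e) G := by
        simp only [← coe_aeval_eq_eval, RingHom.coe_coe]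
        congr 2
      rw [h5, h4, mul_zero] at h3
      rw [← coe_aeval_eq_eval, RingHom.coe_coe, h3, zero_mul]
    have h1 : H = 0 := (mul_eq_zero.1 h0).resolve_right (mul_ne_zero hq0 hD)
    have h2 := hH E u hq
    rw [h1, map_zero, hxf, aeval_rename] at h2
    have h3 := (mul_eq_zero.1 h2.symm).resolve_left (pow_ne_zero _ hq)
    have e1 : ((Sum.elim z (Sum.elim v b) : Fin n ⊕ (Fin m ⊕ Fin m) → E) ∘ Sum.inl) = z := by
      funext j; rfl
    rw [e1] at h3
    exact hind (by rw [h3, map_zero])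

end poly

section conic

variable {K : Type*} [Field K] [CharZero K]

/-- the points of a conic, except one, are parametrized by lines -/
lemma conic_solve {a c R₀ S₀ R S : K} (ha : a ≠ 0) (hc : c ≠ 0) (h₀ : R₀ ^ 2 - a * S₀ ^ 2 = c)
    (h : R ^ 2 - a * S ^ 2 = c) (hS : S ≠ -S₀) :
    ∃ μ : K, 1 - a * μ ^ 2 ≠ 0 ∧
      (R₀ * (1 + a * μ ^ 2) + 2 * a * S₀ * μ) / (1 - a * μ ^ 2) = R ∧
      (2 * R₀ * μ + S₀ * (1 + a * μ ^ 2)) / (1 - a * μ ^ 2) = S := by
  obtain ⟨x, hx⟩ : ∃ x, x = (R₀ * R - a * S₀ * S) / c := ⟨_, rfl⟩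
  obtain ⟨y, hy⟩ : ∃ y, y = (R₀ * S - S₀ * R) / c := ⟨_, rfl⟩
  have hxy : x ^ 2 - a * y ^ 2 = 1 := by
    have h1 : (R₀ * R - a * S₀ * S) ^ 2 - a * (R₀ * S - S₀ * R) ^ 2 = c ^ 2 := by
      linear_combination (R ^ 2 - a * S ^ 2) * h₀ + c * h
    rw [hx, hy]
    field_simp
    linear_combination h1
  have f1 : R₀ * x + a * S₀ * y = R := by
    rw [hx, hy]
    field_simp
    linear_combination R * h₀
  have f2 : R₀ * y + S₀ * x = S := by
    rw [hx, hy]
    field_simp
    linear_combination S * h₀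
  have h1x : 1 + x ≠ 0 := by
    intro h1
    have hx1 : x = -1 := by linear_combination h1
    have hy0 : y = 0 := by
      have h2 : a * y ^ 2 = 0 := by
        rw [hx1] at hxy
        linear_combination -hxy
      exact pow_eq_zero_iff two_ne_zero |>.1 ((mul_eq_zero.1 h2).resolve_left ha)
    apply hS
    rw [← f2, hx1, hy0]
    ring
  have hd : 1 - a * (y / (1 + x)) ^ 2 = 2 / (1 + x) := by
    field_simp
    linear_combination hxy
  have hp : 1 + a * (y / (1 + x)) ^ 2 = 2 * x / (1 + x) := by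
    field_simp
    linear_combination -hxy
  refine ⟨y / (1 + x), ?_, ?_, ?_⟩
  · rw [hd]
    exact div_ne_zero two_ne_zero h1x
  · rw [hd, hp, ← f1]
    field_simp
  · rw [hd, hp, ← f2]
    field_simp

variable {α I : Type*} [Fintype α] [DecidableEq α] [Fintype I] [DecidableEq I]

/-- a polynomial of degree at most one in the abscissas, vanishing on most of a smooth fibre with
rational points, vanishes identically over the point of the base -/
lemma fib_zero' {A B : I → MvPolynomial α K} {z : α → K} (hz : Pz A B z)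
    {g : MvPolynomial (α ⊕ (I ⊕ I)) K} (hg : MA g) (β : I → K)
    (h : ∀ x y : I → K, (∀ i, x i ^ 2 - MvPolynomial.eval z (A i) * y i ^ 2 =
      MvPolynomial.eval z (B i)) → (∀ i, y i ≠ β i) →
      MvPolynomial.eval (Sum.elim z (Sum.elim x y)) g = 0)
    (x y : I → K) : MvPolynomial.eval (Sum.elim z (Sum.elim x y)) g = 0 := by
  obtain ⟨G, hG⟩ := exists_fiby g z x
  have hG0 : G = 0 := by
    refine MvPolynomial.funext_set (s := fun i => {y : K | ∃ x : K, x ≠ 0 ∧
      x ^ 2 - MvPolynomial.eval z (A i) * y ^ 2 = MvPolynomial.eval z (B i)} \ {β i})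
      (fun i => (inf_y (hz i).1 (hz i).2.1 (hz i).2.2).sdiff (Set.finite_singleton _))
      fun y' hy' => ?_
    rw [hG, map_zero]
    choose x₁ hx₁ hx₁' using fun i => (hy' i (Set.mem_univ i)).1
    refine hg.zero hx₁ (fun x' hx' => h x' y' (fun i => ?_) fun i => (hy' i (Set.mem_univ i)).2) x
    rcases hx' i with h1 | h1
    · rw [h1]; exact hx₁' i
    · rw [h1, neg_sq]; exact hx₁' i
  rw [← hG, hG0, map_zero]

end conic

end Pool.Agent.H436.PR
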