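import Pool.Agent.H436.PR.Poly

/-!
# The points of fibre products of conic bundles are unirational sets (helper436)
-/

set_option autoImplicit false

namespace Pool.Agent.H436.PR

open Pool.Agent.H436.HP Pool.Agent.H436.HQ Pool.Agent.H436.FP Pool.Agent.TH178.HI MvPolynomial
open Pool.Agent.H436.CW Pool.Agent.H436.CB
open Pool.Agent.R565.PU (Unirational)

section par

variable {K : Type} [Field K]

/-- A parametrization by rational functions with separate denominators. -/
structure IsPar {σ κ : Type} (S : Set (σ → K)) (D : MvPolynomial κ K)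
    (p q : σ → MvPolynomial κ K) : Prop where
  D_ne : D ≠ 0
  q_ne : ∀ s, q s ≠ 0
  mem : ∀ e : κ → K, eval e D ≠ 0 → (∀ s, eval e (q s) ≠ 0) →
    (fun s => eval e (p s) / eval e (q s)) ∈ S
  dense : ∀ h : MvPolynomial σ K, (∀ e : κ → K, eval e D ≠ 0 → (∀ s, eval e (q s) ≠ 0) →
    eval (fun s => eval e (p s) / eval e (q s)) h = 0) → ∀ x ∈ S, eval x h = 0

theorem IsPar.unirational {σ κ : Type} [Finite κ] {N : ℕ} (ε : σ ≃ Fin N)
    {S : Set (Fin N → K)} {D : MvPolynomial κ K} {p q : σ → MvPolynomial κ K}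
    (h : IsPar {x : σ → K | (fun i => x (ε.symm i)) ∈ S} D p q) : Unirational S := by
  classical
  have : Fintype κ := Fintype.ofFinite κ
  have : Fintype σ := Fintype.ofEquiv _ ε.symm
  let eκ := Fintype.equivFin κ
  have hr : ∀ (t : Fin (Fintype.card κ) → K) (F : MvPolynomial κ K),
      eval t (rename eκ F) = eval (t ∘ eκ) F := fun t F => eval_rename _ _ _
  refine Or.inr ⟨Fintype.card κ, rename eκ (D * ∏ s, q s),
    fun i => rename eκ (p (ε.symm i) * (D * ∏ t ∈ Finset.univ.erase (ε.symm i), q t)), ?_, ?_, ?_⟩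
  · intro h0
    have h1 : D * ∏ s, q s = 0 := rename_injective _ eκ.injective (by rw [h0, map_zero])
    exact mul_ne_zero h.D_ne (Finset.prod_ne_zero_iff.2 fun s _ => h.q_ne s) h1
  · intro t ht
    rw [hr, map_mul, map_prod] at ht
    have h1 := left_ne_zero_of_mul ht
    have h2 : ∀ s, eval (t ∘ eκ) (q s) ≠ 0 := fun s =>
      Finset.prod_ne_zero_iff.1 (right_ne_zero_of_mul ht) s (Finset.mem_univ s)
    have h3 := h.mem (t ∘ eκ) h1 h2
    have e1 : (fun i => eval t (rename eκ (p (ε.symm i) *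
        (D * ∏ t ∈ Finset.univ.erase (ε.symm i), q t))) / eval t (rename eκ (D * ∏ s, q s))) =
        fun i => eval (t ∘ eκ) (p (ε.symm i)) / eval (t ∘ eκ) (q (ε.symm i)) := by
      funext i
      rw [hr, hr, ← Finset.mul_prod_erase _ _ (Finset.mem_univ (ε.symm i)), map_mul, map_mul,
        map_mul, map_mul, map_prod]
      have h4 : ∏ s ∈ Finset.univ.erase (ε.symm i), eval (t ∘ eκ) (q s) ≠ 0 :=
        Finset.prod_ne_zero_iff.2 fun s _ => h2 s
      have h5 := h2 (ε.symm i)
      field_simp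
    rw [e1]
    exact h3
  · intro F hF z hz
    have h1 := h.dense (rename ε.symm F) (fun e he hq => ?_) (z ∘ ε) ?_
    · rw [eval_rename] at h1
      have e2 : (z ∘ ε) ∘ ε.symm = z := by
        funext i
        simp
      rwa [e2] at h1
    · obtain ⟨t, ht⟩ : ∃ t : Fin (Fintype.card κ) → K, t ∘ eκ = e :=
        ⟨e ∘ eκ.symm, by funext i; simp⟩
      have hg : eval t (rename eκ (D * ∏ s, q s)) ≠ 0 := by
        rw [hr, ht, map_mul, map_prod]
        exact mul_ne_zero he (Finset.prod_ne_zero_iff.2 fun s _ => hq s)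
      have h2 := hF t hg
      rw [eval_rename]
      rw [← h2]
      congr 2
      funext i
      rw [hr, hr, ht, ← Finset.mul_prod_erase _ _ (Finset.mem_univ (ε.symm i)), map_mul, map_mul,
        map_mul, map_mul, map_prod]
      have h4 : ∏ s ∈ Finset.univ.erase (ε.symm i), eval e (q s) ≠ 0 :=
        Finset.prod_ne_zero_iff.2 fun s _ => hq s
      have h5 := hq (ε.symm i)
      rw [Function.comp_apply]
      field_simp
    · change (fun i => (z ∘ ε) (ε.symm i)) ∈ S
      have e2 : (fun i => (z ∘ ε) (ε.symm i)) = z := by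
        funext i
        simp
      rw [e2]
      exact hz

end par

section main

variable {k : Type} [Field k] [CharZero k] {n m : ℕ}

/-- The point `(t, w, y)` is on the fibre product `w_i² = a_i(t) y_i² + f_i(t)`. -/
def OnX (a f : Fin m → MvPolynomial (Fin n) k) (x : Fin n ⊕ (Fin m ⊕ Fin m) → k) : Prop :=
  ∀ i, x (Sum.inr (Sum.inl i)) ^ 2 = eval (fun j => x (Sum.inl j)) (a i) *
    x (Sum.inr (Sum.inr i)) ^ 2 + eval (fun j => x (Sum.inl j)) (f i)

theorem conic_par {a f : Fin m → MvPolynomial (Fin n) k} (hS : Sec a f)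
    (ha : ∀ i, a i ≠ 0) (hf : ∀ i, f i ≠ 0) {h : MvPolynomial (Fin n) k} (hh : h ≠ 0) :
    ∃ (κ : Type) (_ : Finite κ) (D : MvPolynomial κ k)
      (p q : Fin n ⊕ (Fin m ⊕ Fin m) → MvPolynomial κ k),
      IsPar {x | OnX a f x ∧ eval (fun j => x (Sum.inl j)) (h * ∏ i, (a i * f i)) ≠ 0} D p q := by
  classical
  have hinf : Infinite k := CharZero.infinite k
  obtain ⟨ι, hι, q0, Z, B, V, hq0, heq, hden⟩ := sec_poly hS
  obtain ⟨g, hg⟩ : ∃ g, g = h * ∏ i, (a i * f i) := ⟨_, rfl⟩
  have hg0 : g ≠ 0 := by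
    rw [hg]
    exact mul_ne_zero hh (Finset.prod_ne_zero_iff.2 fun i _ => mul_ne_zero (ha i) (hf i))
  rw [← hg]
  choose N α hα using fun i => Pool.Agent.R565.PU.exists_clear q0 Z (a i)
  obtain ⟨M, H, hH⟩ := Pool.Agent.R565.PU.exists_clear q0 Z g
  have hα' : ∀ i (e : ι → k), eval e q0 ≠ 0 →
      eval e (α i) = eval e q0 ^ N i * eval (qv Z q0 e) (a i) := fun i e he => by
    have := hα i k e (by rw [ae]; exact he)
    simp only [ae] at this
    exact this
  have hH' : ∀ (e : ι → k), eval e q0 ≠ 0 →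
      eval e H = eval e q0 ^ M * eval (qv Z q0 e) g := fun e he => by
    have := hH k e (by rw [ae]; exact he)
    simp only [ae] at this
    exact this
  have hH0 : H ≠ 0 := by
    intro h0
    apply hg0
    refine hden 1 one_ne_zero g fun e he _ => ?_
    have := hH' e he
    rw [h0, map_zero] at this
    exact (mul_eq_zero.1 this.symm).resolve_left (pow_ne_zero _ he)
  have hr : ∀ (t : ι ⊕ Fin m → k) (F : MvPolynomial ι k),
      eval t (rename Sum.inl F) = eval (t ∘ Sum.inl) F := fun t F => eval_rename _ _ _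
  obtain ⟨e₀, he₀⟩ : ∃ e : ι → k, eval e q0 ≠ 0 := by
    by_contra hc
    push Not at hc
    exact hq0 (MvPolynomial.funext fun e => by rw [hc e, map_zero])
  -- the numerators and denominators
  let pw : Fin m → MvPolynomial (ι ⊕ Fin m) k := fun i =>
    rename Sum.inl (V i) * (rename Sum.inl q0 ^ N i + rename Sum.inl (α i) * X (Sum.inr i) ^ 2) +
      2 * rename Sum.inl (α i) * rename Sum.inl (B i) * X (Sum.inr i)
  let py : Fin m → MvPolynomial (ι ⊕ Fin m) k := fun i =>
    2 * rename Sum.inl (V i) * X (Sum.inr i) * rename Sum.inl q0 ^ N i +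
      rename Sum.inl (B i) * (rename Sum.inl q0 ^ N i + rename Sum.inl (α i) * X (Sum.inr i) ^ 2)
  let qq : Fin m → MvPolynomial (ι ⊕ Fin m) k := fun i =>
    rename Sum.inl q0 * (rename Sum.inl q0 ^ N i - rename Sum.inl (α i) * X (Sum.inr i) ^ 2)
  have hqq : ∀ (t : ι ⊕ Fin m → k) i, eval (t ∘ Sum.inl) q0 ≠ 0 → eval t (qq i) =
      eval (t ∘ Sum.inl) q0 ^ (N i + 1) *
        (1 - eval (qv Z q0 (t ∘ Sum.inl)) (a i) * t (Sum.inr i) ^ 2) := fun t i ht => by
    simp only [qq, map_mul, map_sub, map_pow, hr, eval_X, hα' i _ ht]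
    ring
  have hpw : ∀ (t : ι ⊕ Fin m → k) i, eval (t ∘ Sum.inl) q0 ≠ 0 → eval t (pw i) =
      eval (t ∘ Sum.inl) q0 ^ (N i + 1) * (qv V q0 (t ∘ Sum.inl) i *
        (1 + eval (qv Z q0 (t ∘ Sum.inl)) (a i) * t (Sum.inr i) ^ 2) +
        2 * eval (qv Z q0 (t ∘ Sum.inl)) (a i) * qv B q0 (t ∘ Sum.inl) i * t (Sum.inr i)) :=
    fun t i ht => by
    simp only [pw, map_mul, map_add, map_pow, map_ofNat, hr, eval_X, hα' i _ ht]
    rw [qv, qv]
    field_simp
    ring
  have hpy : ∀ (t : ι ⊕ Fin m → k) i, eval (t ∘ Sum.inl) q0 ≠ 0 → eval t (py i) =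
      eval (t ∘ Sum.inl) q0 ^ (N i + 1) * (2 * qv V q0 (t ∘ Sum.inl) i * t (Sum.inr i) +
        qv B q0 (t ∘ Sum.inl) i *
        (1 + eval (qv Z q0 (t ∘ Sum.inl)) (a i) * t (Sum.inr i) ^ 2)) :=
    fun t i ht => by
    simp only [py, map_mul, map_add, map_pow, map_ofNat, hr, eval_X, hα' i _ ht]
    rw [qv, qv]
    field_simp
    ring
  let p : Fin n ⊕ (Fin m ⊕ Fin m) → MvPolynomial (ι ⊕ Fin m) k :=
    Sum.elim (fun j => rename Sum.inl (Z j)) (Sum.elim pw py)
  let q : Fin n ⊕ (Fin m ⊕ Fin m) → MvPolynomial (ι ⊕ Fin m) k :=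
    Sum.elim (fun _ => rename Sum.inl q0) (Sum.elim qq qq)
  -- the point
  have hpt : ∀ t : ι ⊕ Fin m → k, eval (t ∘ Sum.inl) q0 ≠ 0 →
      (∀ i, 1 - eval (qv Z q0 (t ∘ Sum.inl)) (a i) * t (Sum.inr i) ^ 2 ≠ 0) →
      (fun s => eval t (p s) / eval t (q s)) = Sum.elim (qv Z q0 (t ∘ Sum.inl))
        (Sum.elim (fun i => (qv V q0 (t ∘ Sum.inl) i *
          (1 + eval (qv Z q0 (t ∘ Sum.inl)) (a i) * t (Sum.inr i) ^ 2) +
          2 * eval (qv Z q0 (t ∘ Sum.inl)) (a i) * qv B q0 (t ∘ Sum.inl) i * t (Sum.inr i)) /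
          (1 - eval (qv Z q0 (t ∘ Sum.inl)) (a i) * t (Sum.inr i) ^ 2))
        (fun i => (2 * qv V q0 (t ∘ Sum.inl) i * t (Sum.inr i) + qv B q0 (t ∘ Sum.inl) i *
          (1 + eval (qv Z q0 (t ∘ Sum.inl)) (a i) * t (Sum.inr i) ^ 2)) /
          (1 - eval (qv Z q0 (t ∘ Sum.inl)) (a i) * t (Sum.inr i) ^ 2))) := by
    intro t ht h1
    funext s
    rcases s with j | i | i
    · simp only [p, q, Sum.elim_inl, hr]
      rfl
    · simp only [p, q, Sum.elim_inl, Sum.elim_inr]
      rw [hpw t i ht, hqq t i ht, mul_div_mul_left _ _ (pow_ne_zero _ ht)]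
    · simp only [p, q, Sum.elim_inr]
      rw [hpy t i ht, hqq t i ht, mul_div_mul_left _ _ (pow_ne_zero _ ht)]
  have hDt : ∀ t : ι ⊕ Fin m → k, eval t (rename Sum.inl (q0 * H)) =
      eval (t ∘ Sum.inl) q0 * eval (t ∘ Sum.inl) H := fun t => by rw [hr, map_mul]
  refine ⟨ι ⊕ Fin m, inferInstance, rename Sum.inl (q0 * H), p, q, ?_, ?_, ?_, ?_⟩
  · intro h0
    exact mul_ne_zero hq0 hH0 (rename_injective _ Sum.inl_injective (by rw [h0, map_zero]))
  · have hqi : ∀ i, qq i ≠ 0 := by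
      intro i h0
      have h1 := hqq (Sum.elim e₀ fun _ => 0) i (by
        have : (Sum.elim e₀ fun _ : Fin m => (0 : k)) ∘ Sum.inl = e₀ := by funext j; rfl
        rw [this]; exact he₀)
      rw [h0, map_zero] at h1
      have h2 : (Sum.elim e₀ fun _ : Fin m => (0 : k)) ∘ Sum.inl = e₀ := by funext j; rfl
      rw [h2, Sum.elim_inr] at h1
      have h3 := (mul_eq_zero.1 h1.symm).resolve_left (pow_ne_zero _ he₀)
      norm_num at h3
    rintro (j | i | i)
    · intro h0
      exact hq0 (rename_injective _ Sum.inl_injective (by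
        simp only [q, Sum.elim_inl] at h0
        rw [h0, map_zero]))
    · exact hqi i
    · exact hqi i
  · intro t hD hq
    rw [hDt] at hD
    have ht := left_ne_zero_of_mul hD
    have h1 : ∀ i, 1 - eval (qv Z q0 (t ∘ Sum.inl)) (a i) * t (Sum.inr i) ^ 2 ≠ 0 := fun i => by
      have h2 := hq (Sum.inr (Sum.inl i))
      simp only [q, Sum.elim_inr, Sum.elim_inl] at h2
      rw [hqq t i ht] at h2
      exact right_ne_zero_of_mul h2
    rw [hpt t ht h1]
    refine ⟨fun i => ?_, ?_⟩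
    · have h2 := heq (t ∘ Sum.inl) ht i
      have h3 := conic_id (a := eval (qv Z q0 (t ∘ Sum.inl)) (a i))
        (c := eval (qv Z q0 (t ∘ Sum.inl)) (f i)) (R₀ := qv V q0 (t ∘ Sum.inl) i)
        (S₀ := qv B q0 (t ∘ Sum.inl) i) (m := t (Sum.inr i)) (by rw [h2]; ring) (h1 i)
      simp only [Sum.elim_inr, Sum.elim_inl]
      linear_combination h3
    · simp only [Sum.elim_inl]
      have h2 := hH' _ ht
      have h3 := right_ne_zero_of_mul hD
      rw [h2] at h3
      exact right_ne_zero_of_mul h3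
  · intro F hF x hx
    obtain ⟨G, hG, hGF⟩ := exists_nf a f F
    have hG0 : ∀ (w : Fin m ⊕ Fin m → k) (z : Fin n → k), eval (Sum.elim z w) G = 0 := by
      intro w
      obtain ⟨G', hG'⟩ := exists_fibz G w
      have hG'0 : G' = 0 := by
        refine hden H hH0 G' fun e he hHe => ?_
        rw [hG']
        obtain ⟨z, hz⟩ : ∃ z, z = qv Z q0 e := ⟨_, rfl⟩
        have hgz : eval z g ≠ 0 := by
          rw [hH' e he, ← hz] at hHe
          exact right_ne_zero_of_mul hHe
        have hPz : Pz a f z := fun i => by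
          rw [hg, map_mul, map_prod] at hgz
          have h3 := Finset.prod_ne_zero_iff.1 (right_ne_zero_of_mul hgz) i (Finset.mem_univ i)
          rw [map_mul] at h3
          refine ⟨left_ne_zero_of_mul h3, right_ne_zero_of_mul h3, qv V q0 e i, qv B q0 e i, ?_⟩
          rw [heq e he i, ← hz]
          ring
        rw [← hz]
        have hw : w = Sum.elim (fun i => w (Sum.inl i)) (fun i => w (Sum.inr i)) := by
          funext i; rcases i with i | i <;> rfl
        rw [hw]
        refine fib_zero' hPz hG (fun i => -qv B q0 e i) (fun x₁ y₁ hxy hy => ?_) _ _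
        rw [hGF _ (fun i => by simpa using hxy i)]
        choose μ hμ1 hμ2 hμ3 using fun i => conic_solve (hPz i).1 (hPz i).2.1
          (R₀ := qv V q0 e i) (S₀ := qv B q0 e i)
          (by rw [heq e he i, ← hz]; ring) (hxy i) (hy i)
        have et : (Sum.elim e μ : ι ⊕ Fin m → k) ∘ Sum.inl = e := by funext j; rfl
        have h1 : ∀ i, 1 - eval (qv Z q0 ((Sum.elim e μ : ι ⊕ Fin m → k) ∘ Sum.inl)) (a i) *
            (Sum.elim e μ : ι ⊕ Fin m → k) (Sum.inr i) ^ 2 ≠ 0 := fun i => by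
          rw [et, ← hz]
          exact hμ1 i
        have h2 := hpt (Sum.elim e μ) (by rw [et]; exact he) h1
        have h3 := hF (Sum.elim e μ) (by
          rw [hDt, et]
          exact mul_ne_zero he hHe) (by
          rintro (j | i | i)
          · simp only [q, Sum.elim_inl, hr, et]
            exact he
          · simp only [q, Sum.elim_inl, Sum.elim_inr]
            rw [hqq _ i (by rw [et]; exact he)]
            exact mul_ne_zero (pow_ne_zero _ (by rw [et]; exact he)) (h1 i)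
          · simp only [q, Sum.elim_inr]
            rw [hqq _ i (by rw [et]; exact he)]
            exact mul_ne_zero (pow_ne_zero _ (by rw [et]; exact he)) (h1 i))
        rw [h2, et, ← hz] at h3
        have e4 : (Sum.elim z (Sum.elim x₁ y₁) : Fin n ⊕ (Fin m ⊕ Fin m) → k) =
            Sum.elim z (Sum.elim (fun i => (qv V q0 e i * (1 + eval z (a i) *
              (Sum.elim e μ : ι ⊕ Fin m → k) (Sum.inr i) ^ 2) + 2 * eval z (a i) * qv B q0 e i *
              (Sum.elim e μ : ι ⊕ Fin m → k) (Sum.inr i)) / (1 - eval z (a i) *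
              (Sum.elim e μ : ι ⊕ Fin m → k) (Sum.inr i) ^ 2))
              (fun i => (2 * qv V q0 e i * (Sum.elim e μ : ι ⊕ Fin m → k) (Sum.inr i) +
              qv B q0 e i * (1 + eval z (a i) * (Sum.elim e μ : ι ⊕ Fin m → k) (Sum.inr i) ^ 2)) /
              (1 - eval z (a i) * (Sum.elim e μ : ι ⊕ Fin m → k) (Sum.inr i) ^ 2))) := by
          funext s
          rcases s with j | i | i
          · rfl
          · simp only [Sum.elim_inl, Sum.elim_inr]
            exact (hμ2 i).symm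
          · simp only [Sum.elim_inr]
            exact (hμ3 i).symm
        rw [e4]
        exact h3
      intro z
      rw [← hG', hG'0, map_zero]
    rw [← hGF x (fun i => by rw [hx.1 i]; ring)]
    have e1 : x = Sum.elim (fun j => x (Sum.inl j)) (fun i => x (Sum.inr i)) := by
      funext i; rcases i with i | i <;> rfl
    rw [e1]
    exact hG0 _ _

/-- **The points are a unirational set.** -/
theorem unir {a f : Fin m → MvPolynomial (Fin n) k} (ha : ∀ i, a i ≠ 0) (hf : ∀ i, f i ≠ 0)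
    (hT : Typ a f) :
    ∃ h : MvPolynomial (Fin n) k, h ≠ 0 ∧ ∀ (N : ℕ) (ε : Fin n ⊕ (Fin m ⊕ Fin m) ≃ Fin N),
      Unirational {x : Fin N → k | OnX a f (fun s => x (ε s)) ∧
        eval (fun j => x (ε (Sum.inl j))) h ≠ 0} := by
  obtain ⟨h, hh, hs⟩ := exists_sec ha hf hT
  refine ⟨h * ∏ i, (a i * f i), mul_ne_zero hh (Finset.prod_ne_zero_iff.2 fun i _ =>
    mul_ne_zero (ha i) (hf i)), fun N ε => ?_⟩
  by_cases hex : ∃ x : Fin N → k, OnX a f (fun s => x (ε s)) ∧
      eval (fun j => x (ε (Sum.inl j))) (h * ∏ i, (a i * f i)) ≠ 0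
  · obtain ⟨x, hx, hx'⟩ := hex
    rw [map_mul] at hx'
    have hS : Sec a f := by
      refine hs (fun j => x (ε (Sum.inl j))) (left_ne_zero_of_mul hx') fun i => ?_
      refine ⟨x (ε (Sum.inr (Sum.inl i))), x (ε (Sum.inr (Sum.inr i))), 1,
        fun h0 => one_ne_zero h0.2.2, ?_⟩
      rw [hx i]
      ring
    obtain ⟨κ, hκ, D, p, q, hpar⟩ := conic_par hS ha hf hh
    refine IsPar.unirational (D := D) (p := p) (q := q) ε ?_
    have e1 : {x : Fin n ⊕ (Fin m ⊕ Fin m) → k | (fun i => x (ε.symm i)) ∈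
        {x : Fin N → k | OnX a f (fun s => x (ε s)) ∧
          eval (fun j => x (ε (Sum.inl j))) (h * ∏ i, (a i * f i)) ≠ 0}} =
        {x | OnX a f x ∧ eval (fun j => x (Sum.inl j)) (h * ∏ i, (a i * f i)) ≠ 0} := by
      ext x
      simp only [Set.mem_ofPred_eq, Equiv.symm_apply_apply]
    rw [e1]
    exact hpar
  · left
    rw [Set.eq_empty_iff_forall_notMem]
    intro x hx
    exact hex ⟨x, hx⟩

end main

end Pool.Agent.H436.PR
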